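import Mathlib

namespace Pool.Agent.Results.MP_e73184_al.Trace

/-- admissible matrices for the band parameter `k` -/
def Admissible {n : ℕ} (k : ℕ) (A : Matrix (Fin n) (Fin n) ℝ) : Prop :=
  (∀ i j, 0 ≤ A i j) ∧ (∀ j, ∑ i, A i j ≤ 1) ∧ (∀ i, ∑ j, A i j ≤ 1) ∧
  (∀ i j : Fin n, i.val + 2 ≤ j.val → A i j = 0) ∧
  (∀ i j : Fin n, j.val + k < i.val → A i j = 0) ∧
  ∃ c : ℕ → ℝ, (∀ l, 0 ≤ c l) ∧ ∀ i j : Fin n, ∀ l ≤ k, i.val = j.val + l → A i j = c l

theorem result : ∃ A : Matrix (Fin 3) (Fin 3) ℝ, Admissible 2 A ∧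
    (∀ l, 1 ≤ l → l ≤ 2 + 1 → (A ^ l).trace ≤ 1) ∧ (A ^ 4).trace = 11 / 9 := by
  refine ⟨!![1/3, 2/3, 0; 0, 1/3, 2/3; 2/3, 0, 1/3], ⟨?_, ?_, ?_, ?_, ?_,
    fun l => if l = 0 then 1/3 else if l = 2 then 2/3 else 0, ?_, ?_⟩, ?_, ?_⟩
  · intro i j; fin_cases i <;> fin_cases j <;> simp <;> norm_num
  · intro j; fin_cases j <;> simp [Fin.sum_univ_three] <;> norm_num
  · intro j; fin_cases j <;> simp [Fin.sum_univ_three] <;> norm_num
  · intro i j; fin_cases i <;> fin_cases j <;> simp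
  · intro i j; fin_cases i <;> fin_cases j <;> simp
  · intro l; dsimp only; split_ifs <;> norm_num
  · intro i j l hl h
    interval_cases l <;> fin_cases i <;> fin_cases j <;> simp at h ⊢
  · intro l h1 h2
    interval_cases l <;> simp [pow_succ, Matrix.trace, Fin.sum_univ_three] <;> norm_num
  · simp [pow_succ, Matrix.trace, Fin.sum_univ_three]; norm_num

end Pool.Agent.Results.MP_e73184_al.Trace
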